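import Mathlib

/-!
# A closed `Gδ`-subgroup of a precompact abelian group that is not `N`-characterized

Let `K = ZMod 2`, `V = (ℕ → K)`, and let `b` be a basis of the vector space `V` over `K`, indexed by
the (uncountable) type `I`.  The precompact group is the subgroup `X` of the compact group
`(ℕ × ℕ → K) × (I → K)` consisting of all `(f + v ∘ fst, coordinates of v)` where `f` has finite
support and `v ∈ V`.  The subgroup is `F = {x ∈ X : x.2 = 0}`, a copy of the group of finitely
supported functions on `ℕ × ℕ`.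
-/

namespace Pool.Agent.Results.MP_f24352_gt.Counterexample

open Topology
open scoped Pointwise

/-- A subgroup of a compact group is totally bounded (in the sense used in the problem). -/
theorem totallyBounded_subgroup {G : Type*} [AddCommGroup G] [TopologicalSpace G]
    [IsTopologicalAddGroup G] [CompactSpace G] (X : AddSubgroup G) (U : Set X)
    (hU : U ∈ 𝓝 (0 : X)) : ∃ E : Set X, E.Finite ∧ U + E = Set.univ := by
  classical
  obtain ⟨V, hV, hVU⟩ := (mem_nhds_subtype _ _ _).1 hU
  have hV0 : V ∈ 𝓝 (0 : G) := by simpa using hV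
  -- choose W with W - W ⊆ V
  have hsub : Filter.Tendsto (fun p : G × G => p.1 - p.2) (𝓝 ((0 : G), (0 : G))) (𝓝 0) := by
    have h := (continuous_fst.sub continuous_snd : Continuous (fun p : G × G => p.1 - p.2)).tendsto
      ((0 : G), (0 : G))
    have h0 : (Prod.fst - Prod.snd : G × G → G) ((0 : G), (0 : G)) = 0 := sub_self _
    rw [h0] at h
    exact h
  have hpre := hsub hV0
  rw [Filter.mem_map, nhds_prod_eq, Filter.mem_prod_self_iff] at hpre
  obtain ⟨W, hW, hWV⟩ := hpre
  -- finite subcover of G by translates g + W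
  have hcover : ∃ t : Finset G, (⋃ g ∈ t, {x : G | x - g ∈ W}) = Set.univ := by
    have := CompactSpace.elim_nhds_subcover (fun g : G => {x : G | x - g ∈ W}) (fun g => by
      have hc : Filter.Tendsto (fun x : G => x - g) (𝓝 g) (𝓝 0) := by
        have h := (continuous_id.sub continuous_const : Continuous (fun x : G => x - g)).tendsto g
        have h0 : g - g = 0 := sub_self _
        rw [← h0]
        exact h
      exact hc hW)
    obtain ⟨t, ht⟩ := this
    exact ⟨t, by simpa using ht⟩
  obtain ⟨t, ht⟩ := hcover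
  -- pick representatives
  let pick : G → X := fun g => if h : ∃ e : X, (e : G) - g ∈ W then h.choose else 0
  refine ⟨pick '' (t : Set G), t.finite_toSet.image _, ?_⟩
  rw [Set.eq_univ_iff_forall]
  intro x
  have hx : (x : G) ∈ ⋃ g ∈ t, {x : G | x - g ∈ W} := by rw [ht]; trivial
  simp only [Set.mem_iUnion, Set.mem_ofPred_eq, exists_prop] at hx
  obtain ⟨g, hg, hxg⟩ := hx
  have hex : ∃ e : X, (e : G) - g ∈ W := ⟨x, hxg⟩
  have hpick : ((pick g : X) : G) - g ∈ W := by
    simp only [pick, dif_pos hex]
    exact hex.choose_spec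
  refine Set.mem_add.2 ⟨x - pick g, ?_, pick g, Set.mem_image_of_mem _ hg, by abel⟩
  apply hVU
  have h2 : (((x : G) - g), ((pick g : X) : G) - g) ∈ W ×ˢ W := ⟨hxg, hpick⟩
  have h3 := hWV h2
  simpa using h3

/-- An element `t` of the circle with `t + t = 0` and `t ≠ 1/2` is zero. -/
theorem circle_two_torsion (t : UnitAddCircle) (h2 : t + t = 0)
    (h : t ≠ ((1 / 2 : ℝ) : UnitAddCircle)) : t = 0 := by
  induction t using QuotientAddGroup.induction_on with
  | H r =>
    have h3 : ((r + r : ℝ) : UnitAddCircle) = 0 := by simpa using h2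
    rw [AddCircle.coe_eq_zero_iff] at h3
    obtain ⟨n, hn⟩ := h3
    have hn' : (n : ℝ) = r + r := by simpa using hn
    rcases Int.even_or_odd n with ⟨m, hm⟩ | ⟨m, hm⟩
    · have hr : (m : ℝ) = r := by
        have : (n : ℝ) = m + m := by exact_mod_cast hm
        linarith
      change ((r : ℝ) : UnitAddCircle) = 0
      rw [AddCircle.coe_eq_zero_iff]
      exact ⟨m, by simpa using hr⟩
    · exfalso
      apply h
      have hr : r = m + 1 / 2 := by
        have : (n : ℝ) = 2 * m + 1 := by exact_mod_cast hm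
        linarith
      change ((r : ℝ) : UnitAddCircle) = _
      rw [← sub_eq_zero, ← AddCircle.coe_sub, AddCircle.coe_eq_zero_iff]
      exact ⟨m, by rw [hr]; simp⟩

theorem half_ne_zero' : (0 : UnitAddCircle) ≠ ((1 / 2 : ℝ) : UnitAddCircle) := by
  intro h
  have h' := h.symm
  rw [AddCircle.coe_eq_zero_iff] at h'
  obtain ⟨n, hn⟩ := h'
  have hn' : (n : ℝ) = 1 / 2 := by simpa using hn
  have h2 : (2 * n : ℝ) = 1 := by linarith
  have h3 : 2 * n = 1 := by exact_mod_cast h2
  omega

/-- The vector space `ℕ → ZMod 2`. -/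
abbrev V : Type := ℕ → ZMod 2

/-- Index type of a basis of `V`. -/
abbrev I : Type := Module.Basis.ofVectorSpaceIndex (ZMod 2) V

/-- A basis of `V`. -/
noncomputable def b : Module.Basis I (ZMod 2) V := Module.Basis.ofVectorSpace (ZMod 2) V

theorem not_countable_V : ¬ Countable V := by
  intro hc
  have : Countable (Set ℕ) := by
    classical
    let g : Set ℕ → V := fun s n => if n ∈ s then 1 else 0
    have hg : Function.Injective g := by
      intro s t hst
      ext n
      have := congrFun hst n
      by_cases h1 : n ∈ s <;> by_cases h2 : n ∈ t <;> simp_all [g]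
    exact hg.countable
  obtain ⟨f, hf⟩ := this
  exact Function.cantor_injective f hf

theorem not_countable_I : ¬ Countable I := by
  intro hc
  apply not_countable_V
  exact b.repr.toEquiv.injective.countable

/-- The ambient compact group. -/
abbrev G : Type := (ℕ × ℕ → ZMod 2) × (I → ZMod 2)

/-- The precompact group, as a subgroup of `G`. -/
def X : AddSubgroup G where
  carrier := {x | ∃ v : V, (∀ i, x.2 i = b.repr v i) ∧ {p : ℕ × ℕ | x.1 p ≠ v p.1}.Finite}
  zero_mem' := ⟨0, by simp, by simp⟩
  add_mem' := by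
    rintro x y ⟨v, hv, hvf⟩ ⟨w, hw, hwf⟩
    refine ⟨v + w, fun i => by simp [hv, hw], (hvf.union hwf).subset ?_⟩
    intro p hp
    simp only [Set.mem_ofPred_eq, Set.mem_union] at hp ⊢
    by_contra hcon
    push Not at hcon
    apply hp
    simp [hcon.1, hcon.2]
  neg_mem' := by
    rintro x ⟨v, hv, hvf⟩
    refine ⟨-v, fun i => by simp [hv], hvf.subset ?_⟩
    intro p hp
    simp only [Set.mem_ofPred_eq] at hp ⊢
    intro hcon
    apply hp
    simp [hcon]

/-- The closed `Gδ` subgroup. -/
def F : AddSubgroup X where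
  carrier := {x | (x : G).2 = 0}
  zero_mem' := by simp
  add_mem' := by
    intro x y hx hy
    simp only [Set.mem_ofPred_eq] at hx hy ⊢
    simp [hx, hy]
  neg_mem' := by
    intro x hx
    simp only [Set.mem_ofPred_eq] at hx ⊢
    simp [hx]

theorem mem_F (x : X) : x ∈ F ↔ (x : G).2 = 0 := Iff.rfl

theorem isClosed_F : IsClosed (F : Set X) := by
  have h : Continuous (fun x : X => (x : G).2) := continuous_snd.comp continuous_subtype_val
  exact isClosed_singleton.preimage h

/-- For a finitely supported `f` and `m`, the closed set of those `x ∈ X` for which `x.1 - f`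
does not depend on the second coordinate and does not vanish at `(m, 0)`. -/
def C (f : (ℕ × ℕ) →₀ ZMod 2) (m : ℕ) : Set X :=
  {x | (∀ i j : ℕ, (x : G).1 (i, j) - f (i, j) = (x : G).1 (i, 0) - f (i, 0)) ∧
    (x : G).1 (m, 0) - f (m, 0) ≠ 0}

theorem isClosed_C (f : (ℕ × ℕ) →₀ ZMod 2) (m : ℕ) : IsClosed (C f m) := by
  have hcont : ∀ p : ℕ × ℕ, Continuous (fun x : X => (x : G).1 p - f p) := fun p =>
    (continuous_of_discreteTopology (f := fun t : ZMod 2 => t - f p)).comp
      ((continuous_apply p).comp (continuous_fst.comp continuous_subtype_val))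
  have h1 : IsClosed {x : X | ∀ i j : ℕ, (x : G).1 (i, j) - f (i, j)
      = (x : G).1 (i, 0) - f (i, 0)} := by
    simp only [Set.ofPred_forall]
    exact isClosed_iInter fun i => isClosed_iInter fun j =>
      isClosed_eq (hcont (i, j)) (hcont (i, 0))
  have h2 : IsClosed {x : X | (x : G).1 (m, 0) - f (m, 0) ≠ 0} := by
    have : {x : X | (x : G).1 (m, 0) - f (m, 0) ≠ 0}
        = (fun x : X => (x : G).1 (m, 0) - f (m, 0)) ⁻¹' {t | t ≠ 0} := rfl
    rw [this]
    exact (isClosed_discrete _).preimage (hcont (m, 0))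
  exact h1.inter h2

theorem F_eq : (F : Set X) = ⋂ q : ((ℕ × ℕ) →₀ ZMod 2) × ℕ, (C q.1 q.2)ᶜ := by
  classical
  ext x
  simp only [SetLike.mem_coe, Set.mem_iInter, Set.mem_compl_iff, Prod.forall]
  obtain ⟨v, hv, hvf⟩ := x.2
  constructor
  · intro hx f m hC
    rw [mem_F] at hx
    have hv0 : v = 0 := by
      apply b.repr.injective
      ext i
      rw [← hv i, hx]
      simp
    subst hv0
    simp only [Pi.zero_apply] at hvf
    -- x.1 has finite support, so `x.1 - f` has finite support
    have hfin : {p : ℕ × ℕ | (x : G).1 p - f p ≠ 0}.Finite := by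
      refine (hvf.union f.hasFiniteSupport).subset ?_
      intro p hp
      simp only [Set.mem_ofPred_eq, Set.mem_union, Function.mem_support] at hp ⊢
      by_contra hcon
      push Not at hcon
      apply hp
      rw [hcon.1, hcon.2, sub_zero]
    have hinf : (Set.range fun j : ℕ => (m, j)) ⊆ {p : ℕ × ℕ | (x : G).1 p - f p ≠ 0} := by
      rintro p ⟨j, rfl⟩
      simp only [Set.mem_ofPred_eq]
      rw [hC.1 m j]
      exact hC.2
    have : (Set.range fun j : ℕ => (m, j)).Finite := hfin.subset hinf
    exact Set.infinite_range_of_injective (fun a b h => (Prod.mk.inj h).2) this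
  · intro h
    rw [mem_F]
    -- f := x.1 - v ∘ fst
    let f : (ℕ × ℕ) →₀ ZMod 2 := Finsupp.ofSupportFinite (fun p => (x : G).1 p - v p.1) (by
      refine hvf.subset ?_
      intro p hp
      simp only [Function.mem_support] at hp
      intro hcon
      exact hp (by rw [hcon, sub_self]))
    have hf : ∀ p, f p = (x : G).1 p - v p.1 := fun p => rfl
    have hv0 : v = 0 := by
      by_contra hne
      obtain ⟨m, hm⟩ := Function.ne_iff.1 hne
      apply h f m
      refine ⟨fun i j => ?_, ?_⟩
      · rw [hf, hf]; ring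
      · rw [hf]
        simpa using hm
    funext i
    rw [hv i, hv0]
    simp

theorem isGδ_F : IsGδ (F : Set X) := by
  rw [F_eq]
  exact IsGδ.iInter_of_isOpen fun q => (isClosed_C q.1 q.2).isOpen_compl

theorem add_self_eq_zero (x : X) : x + x = 0 := by
  apply Subtype.ext
  simp only [AddSubgroup.coe_add, ZeroMemClass.coe_zero]
  refine Prod.ext (funext fun p => ?_) (funext fun i => ?_)
  · exact CharTwo.add_self_eq_zero _
  · exact CharTwo.add_self_eq_zero _

/-- A continuous character of `X` vanishing on `F` depends on only finitely many of the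
coordinates in `I`. -/
theorem char_finite (χ : X →+ UnitAddCircle) (hχ : Continuous χ) (hF : ∀ x ∈ F, χ x = 0) :
    ∃ A : Set I, A.Finite ∧ ∀ x : X, (∀ i ∈ A, (x : G).2 i = 0) → χ x = 0 := by
  classical
  have hopen : IsOpen {x : X | χ x ≠ ((1 / 2 : ℝ) : UnitAddCircle)} :=
    isOpen_compl_singleton.preimage hχ
  have hmem : {x : X | χ x ≠ ((1 / 2 : ℝ) : UnitAddCircle)} ∈ 𝓝 (0 : X) := by
    apply hopen.mem_nhds
    simp only [Set.mem_ofPred_eq, map_zero]
    exact half_ne_zero'
  obtain ⟨W, hW, hWsub⟩ := (mem_nhds_subtype _ _ _).1 hmem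
  have hW0 : W ∈ 𝓝 ((0 : ℕ × ℕ → ZMod 2), (0 : I → ZMod 2)) := hW
  rw [nhds_prod_eq, Filter.mem_prod_iff] at hW0
  obtain ⟨W1, hW1, W2, hW2, hW12⟩ := hW0
  rw [nhds_pi, Filter.mem_pi] at hW1 hW2
  obtain ⟨A1, hA1, t1, ht1, hsub1⟩ := hW1
  obtain ⟨A2, hA2, t2, ht2, hsub2⟩ := hW2
  -- elements vanishing on A1 and A2 are mapped to 0
  have key : ∀ x : X, (∀ p ∈ A1, (x : G).1 p = 0) → (∀ i ∈ A2, (x : G).2 i = 0) → χ x = 0 := by
    intro x h1 h2
    have hxW : (x : G) ∈ W := by
      apply hW12
      refine ⟨hsub1 ?_, hsub2 ?_⟩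
      · intro p hp
        rw [h1 p hp]
        exact mem_of_mem_nhds (ht1 p)
      · intro i hi
        rw [h2 i hi]
        exact mem_of_mem_nhds (ht2 i)
    have hne : χ x ≠ ((1 / 2 : ℝ) : UnitAddCircle) := hWsub hxW
    refine circle_two_torsion _ ?_ hne
    rw [← map_add, add_self_eq_zero, map_zero]
  refine ⟨A2, hA2, ?_⟩
  intro x hx
  -- correct x by an element of F
  let g : G := (fun p => if p ∈ A1 then (x : G).1 p else 0, 0)
  have hg : g ∈ X := by
    refine ⟨0, by simp [g], hA1.subset ?_⟩
    intro p hp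
    simp only [g, Set.mem_ofPred_eq, Pi.zero_apply] at hp
    by_contra hcon
    exact hp (if_neg hcon)
  have hgF : (⟨g, hg⟩ : X) ∈ F := by
    rw [mem_F]
  have h3 : χ (x - ⟨g, hg⟩) = 0 := by
    apply key
    · intro p hp
      simp [g, hp]
    · intro i hi
      simp [g, hx i hi]
  have h4 : χ x = χ (x - ⟨g, hg⟩) + χ ⟨g, hg⟩ := by
    rw [← map_add, sub_add_cancel]
  rw [h4, h3, hF _ hgF, add_zero]

theorem not_N_characterized (B : Set (X →+ UnitAddCircle)) (hB : B.Countable)
    (hcont : ∀ χ ∈ B, Continuous χ) : (F : Set X) ≠ {x | ∀ χ ∈ B, χ x = 0} := by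
  classical
  intro hF
  have hA : ∀ χ : B, ∃ A : Set I, A.Finite ∧
      ∀ x : X, (∀ i ∈ A, (x : G).2 i = 0) → (χ : X →+ UnitAddCircle) x = 0 := by
    intro χ
    apply char_finite _ (hcont _ χ.2)
    intro x hx
    have : x ∈ (F : Set X) := hx
    rw [hF] at this
    exact this _ χ.2
  choose A hAfin hA using hA
  have : Countable B := hB.to_subtype
  have hcount : (⋃ χ : B, A χ).Countable := Set.countable_iUnion fun χ => (hAfin χ).countable
  have hex : ∃ i : I, i ∉ ⋃ χ : B, A χ := by
    by_contra hcon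
    push Not at hcon
    apply not_countable_I
    rw [← Set.countable_univ_iff]
    exact hcount.mono fun i _ => hcon i
  obtain ⟨i, hi⟩ := hex
  let g : G := (fun p => b i p.1, fun j => b.repr (b i) j)
  have hg : g ∈ X := ⟨b i, fun j => rfl, by simp [g]⟩
  have hgF : (⟨g, hg⟩ : X) ∈ (F : Set X) := by
    rw [hF]
    intro χ hχ
    apply hA ⟨χ, hχ⟩
    intro j hj
    have hij : i ≠ j := by
      rintro rfl
      exact hi (Set.mem_iUnion.2 ⟨⟨χ, hχ⟩, hj⟩)
    change b.repr (b i) j = 0
    rw [Module.Basis.repr_self, Finsupp.single_eq_of_ne hij.symm]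
  have h1 : g.2 i = 0 := by
    have : g.2 = 0 := (mem_F _).1 hgF
    rw [this]; rfl
  have h2 : g.2 i = 1 := by
    change b.repr (b i) i = 1
    rw [Module.Basis.repr_self, Finsupp.single_eq_same]
  rw [h1] at h2
  exact zero_ne_one h2

/-- There is a precompact (that is, totally bounded and Hausdorff) abelian group `X` with a closed
`Gδ`-subgroup `F` which is not the annihilator of any countable set of characters of `X`. -/
theorem result : ∃ (X : Type) (_ : AddCommGroup X) (_ : TopologicalSpace X),
    IsTopologicalAddGroup X ∧ T2Space X ∧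
    (∀ U ∈ 𝓝 (0 : X), ∃ E : Set X, E.Finite ∧ U + E = Set.univ) ∧
    ∃ F : AddSubgroup X, IsClosed (F : Set X) ∧ IsGδ (F : Set X) ∧
      ∀ B : Set (X →+ UnitAddCircle), B.Countable → (∀ χ ∈ B, Continuous χ) →
        (F : Set X) ≠ {x | ∀ χ ∈ B, χ x = 0} :=
  ⟨X, inferInstance, inferInstance, inferInstance, inferInstance,
    fun U hU => totallyBounded_subgroup X U hU, F, isClosed_F, isGδ_F,
    fun B hB hcont => not_N_characterized B hB hcont⟩

end Pool.Agent.Results.MP_f24352_gt.Counterexample
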